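import Pool.Agent.H44.AR.BasicA

/-!
# All reducts, all arities: maps which depend only on the types at the elements whose types are in
`D` (MP_6ab439_lc, row BLD)
-/

set_option autoImplicit false
set_option linter.unusedVariables false

namespace Pool.Agent.H19.AR

open Pool.Agent.H68.BP Pool.Agent.H58.SF Pool.Agent.H53.GC Pool.Agent.H53.NR Pool.Agent.H53.GR
open Pool.Agent.H57.AR Pool.Agent.H44.AR
open Pool.Agent.H57.SO (Pal Col vt Sb FBl)
open Pool.Agent.H57.EQ (Cx)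
open Function

section aux

variable {V J : Type} [LinearOrder V] {ρ : Sig}

/-- the order where the elements with types in `D` are replaced by elements at the bottom -/
def ltD (𝔹 : Str ρ V) (D : Set (T1 ρ)) (idx : T1 ρ → ℕ) (x y : V) : Prop :=
  (ty 𝔹 x ∈ D ∧ ty 𝔹 y ∈ D ∧ idx (ty 𝔹 x) < idx (ty 𝔹 y)) ∨ (ty 𝔹 x ∈ D ∧ ty 𝔹 y ∉ D) ∨
    (ty 𝔹 x ∉ D ∧ ty 𝔹 y ∉ D ∧ x < y)

/-- the relations -/
def relD (𝔹 : Str ρ V) (D : Set (T1 ρ)) (l : Fin ρ.m) (z : Fin (ρ.ar l) → V) : Prop :=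
  ((∀ i, ty 𝔹 (z i) ∉ D) ∧ 𝔹 l z) ∨
    ((∃ i, ty 𝔹 (z i) ∈ D) ∧ (∀ i j, ty 𝔹 (z i) = ty 𝔹 (z j)) ∧ ∀ i, ty 𝔹 (z i) l)

/-- the ordered type of the replaced tuple -/
def tD (𝔹 : Str ρ V) (D : Set (T1 ρ)) (idx : T1 ρ → ℕ) (x : J → V) : OT ρ J :=
  (fun l z => relD 𝔹 D l (fun i => x (z i)), fun a b => ltD 𝔹 D idx (x a) (x b))

theorem tD_congr (𝔹 : Str ρ V) (D : Set (T1 ρ)) (idx : T1 ρ → ℕ) {x y : J → V}
    (h : SameO 𝔹 D x y) : tD 𝔹 D idx x = tD 𝔹 D idx y := by
  refine Prod.ext ?_ ?_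
  · funext l z
    apply propext
    change relD 𝔹 D l (fun i => x (z i)) ↔ relD 𝔹 D l (fun i => y (z i))
    unfold relD
    simp only [h.typ]
    refine or_congr_left ?_
    refine and_congr_right fun h1 => ?_
    exact (h.rel l z h1).symm
  · funext a b
    apply propext
    change ltD 𝔹 D idx (x a) (x b) ↔ ltD 𝔹 D idx (y a) (y b)
    unfold ltD
    simp only [h.typ]
    refine or_congr_right (or_congr_right ?_)
    refine and_congr_right fun h1 => and_congr_right fun h2 => ?_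
    exact (h.lt a b h1 h2).symm

theorem exists_g (hSYN : T_SYN) {𝔹 : Str ρ V} {M : ℕ} (hU : Un 𝔹 M) (D : Set (T1 ρ))
    (idx : T1 ρ → ℕ) (hidx : Injective idx) (K : Finset V) :
    ∃ g : V → V, ∀ (J : Type) (x : J → V), (∀ a, x a ∈ K) →
      tpo 𝔹 (fun a => g (x a)) = tD 𝔹 D idx x := by
  classical
  let W := {s : T1 ρ // s ∈ D ∧ ∃ x, ty 𝔹 x = s} ⊕ {x : V // x ∈ K ∧ ty 𝔹 x ∉ D}
  have hfK : Finite {x : V // x ∈ K ∧ ty 𝔹 x ∉ D} :=
    Finite.of_injective (fun x : {x : V // x ∈ K ∧ ty 𝔹 x ∉ D} => (⟨x.1, x.2.1⟩ : K))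
      (fun a b h => Subtype.ext (congrArg (fun z : K => z.1) h))
  have hfW : Finite W := inferInstanceAs
    (Finite ({s : T1 ρ // s ∈ D ∧ ∃ x, ty 𝔹 x = s} ⊕ {x : V // x ∈ K ∧ ty 𝔹 x ∉ D}))
  let rk : W → ℕ ⊕ₗ V := Sum.elim (fun s => Sum.inlₗ (idx s.1)) (fun x => Sum.inrₗ x.1)
  let u : W → V := Sum.elim (fun s => s.2.2.choose) (fun x => x.1)
  let r : W → W → Prop := fun n n' => n.isRight ∧ n'.isRight
  have hrk : Injective rk := by
    rintro (s | x) (t | y) h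
    · exact congrArg Sum.inl (Subtype.ext (hidx (Sum.inl_injective h)))
    · exact absurd h Sum.inl_ne_inr
    · exact absurd h Sum.inr_ne_inl
    · exact congrArg Sum.inr (Subtype.ext (Sum.inr_injective h))
  obtain ⟨f, hf, hf'⟩ := hSYN ρ V 𝔹 M hU W (ℕ ⊕ₗ V) rk u r hrk (fun _ _ h => ⟨h.2, h.1⟩)
  let nm : K → W := fun k => if h : ty 𝔹 (k : V) ∈ D then Sum.inl ⟨ty 𝔹 (k : V), h, k, rfl⟩ else
    Sum.inr ⟨k, k.2, h⟩
  have hnm1 : ∀ (k : K) (h : ty 𝔹 (k : V) ∈ D), nm k = Sum.inl ⟨ty 𝔹 (k : V), h, k, rfl⟩ :=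
    fun k h => dif_pos h
  have hnm2 : ∀ (k : K) (h : ty 𝔹 (k : V) ∉ D), nm k = Sum.inr ⟨k, k.2, h⟩ :=
    fun k h => dif_neg h
  have hu2 : ∀ k : K, ty 𝔹 (k : V) ∉ D → u (nm k) = k := by
    intro k h
    rw [hnm2 k h]
    rfl
  have huty : ∀ k : K, ty 𝔹 (u (nm k)) = ty 𝔹 (k : V) := by
    intro k
    by_cases h : ty 𝔹 (k : V) ∈ D
    · rw [hnm1 k h]
      have h1 : ∃ x, ty 𝔹 x = ty 𝔹 (k : V) := ⟨k, rfl⟩
      exact h1.choose_spec
    · rw [hu2 k h]
  have hr1 : ∀ k k' : K, r (nm k) (nm k') → ty 𝔹 (k : V) ∉ D := by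
    intro k k' h h'
    have h1 := h.1
    rw [hnm1 k h'] at h1
    exact absurd h1 (by exact Bool.false_ne_true)
  have hr2 : ∀ k k' : K, ty 𝔹 (k : V) ∉ D → ty 𝔹 (k' : V) ∉ D → r (nm k) (nm k') := by
    intro k k' h h'
    rw [hnm2 k h, hnm2 k' h']
    exact ⟨rfl, rfl⟩
  have heq1 : ∀ k k' : K, nm k = nm k' → ty 𝔹 (k : V) = ty 𝔹 (k' : V) := by
    intro k k' h
    rw [← huty k, h, huty k']
  have heq2 : ∀ k k' : K, ty 𝔹 (k : V) ∈ D → ty 𝔹 (k : V) = ty 𝔹 (k' : V) → nm k = nm k' := by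
    intro k k' h h'
    rw [hnm1 k h, hnm1 k' (h' ▸ h)]
    exact congrArg Sum.inl (Subtype.ext h')
  have hlt : ∀ k k' : K, rk (nm k) < rk (nm k') ↔ ltD 𝔹 D idx k k' := by
    intro k k'
    unfold ltD
    by_cases h : ty 𝔹 (k : V) ∈ D
    · by_cases h' : ty 𝔹 (k' : V) ∈ D
      · rw [hnm1 k h, hnm1 k' h']
        change (Sum.inlₗ (idx (ty 𝔹 (k : V))) : ℕ ⊕ₗ V) < Sum.inlₗ (idx (ty 𝔹 (k' : V))) ↔ _
        rw [Sum.Lex.inl_lt_inl_iff]
        simp only [h, h', true_and, not_true_eq_false, and_false, false_and, or_false]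
      · rw [hnm1 k h, hnm2 k' h']
        change (Sum.inlₗ (idx (ty 𝔹 (k : V))) : ℕ ⊕ₗ V) < Sum.inrₗ (k' : V) ↔ _
        simp only [h, h', Sum.Lex.inl_lt_inr, true_iff]
        exact Or.inr (Or.inl ⟨trivial, fun h => h⟩)
    · by_cases h' : ty 𝔹 (k' : V) ∈ D
      · rw [hnm2 k h, hnm1 k' h']
        change (Sum.inrₗ (k : V) : ℕ ⊕ₗ V) < Sum.inlₗ (idx (ty 𝔹 (k' : V))) ↔ _
        refine iff_of_false (not_lt.2 (Sum.Lex.inl_lt_inr _ _).le) ?_
        rintro (h1 | h1 | h1)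
        · exact h h1.1
        · exact h h1.1
        · exact h1.2.1 h'
      · rw [hnm2 k h, hnm2 k' h']
        change (Sum.inrₗ (k : V) : ℕ ⊕ₗ V) < Sum.inrₗ (k' : V) ↔ _
        rw [Sum.Lex.inr_lt_inr_iff]
        simp only [h, h', false_and, not_false_eq_true, true_and, false_or]
  refine ⟨fun x => if h : x ∈ K then f (nm ⟨x, h⟩) else x, fun J x hx => ?_⟩
  have hg : (fun a => (fun x => if h : x ∈ K then f (nm ⟨x, h⟩) else x) (x a)) =
      fun a => f (nm ⟨x a, hx a⟩) := by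
    funext a
    exact dif_pos (hx a)
  rw [hg]
  refine Prod.ext ?_ ?_
  · funext l z
    apply propext
    change 𝔹 l (fun i => f (nm ⟨x (z i), hx (z i)⟩)) ↔ relD 𝔹 D l (fun i => x (z i))
    rw [hf' l (fun i => nm ⟨x (z i), hx (z i)⟩)]
    unfold relD
    by_cases hD : ∀ i, ty 𝔹 (x (z i)) ∉ D
    · have e : (fun i => u (nm ⟨x (z i), hx (z i)⟩)) = fun i => x (z i) := by
        funext i
        exact hu2 ⟨x (z i), hx (z i)⟩ (hD i)
      rw [e]
      constructor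
      · rintro ⟨h1, -⟩
        exact Or.inl ⟨hD, h1⟩
      · rintro (⟨-, h1⟩ | ⟨⟨i, hi⟩, -⟩)
        · refine ⟨h1, fun i j => ?_⟩
          by_cases hij : x (z i) = x (z j)
          · left
            have h2 : (⟨x (z i), hx (z i)⟩ : K) = ⟨x (z j), hx (z j)⟩ := Subtype.ext hij
            rw [h2]
          · right
            refine ⟨hr2 _ _ (hD i) (hD j), ?_⟩
            rw [hu2 _ (hD i), hu2 _ (hD j)]
            exact hij
        · exact absurd hi (hD i)
    · have hD' : ∃ i, ty 𝔹 (x (z i)) ∈ D := by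
        by_contra h
        exact hD fun i hi => h ⟨i, hi⟩
      obtain ⟨i₀, hi₀⟩ := hD'
      constructor
      · rintro ⟨h1, h2⟩
        have h3 : ∀ j, nm ⟨x (z i₀), hx (z i₀)⟩ = nm ⟨x (z j), hx (z j)⟩ := by
          intro j
          exact (h2 i₀ j).resolve_right fun h => hr1 _ _ h.1 hi₀
        have h4 : ∀ j, ty 𝔹 (x (z i₀)) = ty 𝔹 (x (z j)) := fun j => heq1 _ _ (h3 j)
        refine Or.inr ⟨⟨i₀, hi₀⟩, fun i j => (h4 i).symm.trans (h4 j), fun i => ?_⟩
        have e : (fun i => u (nm ⟨x (z i), hx (z i)⟩)) = fun _ => u (nm ⟨x (z i₀), hx (z i₀)⟩) := by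
          funext j
          rw [h3 j]
        rw [e] at h1
        rw [← h4 i]
        have h5 : ty 𝔹 (u (nm ⟨x (z i₀), hx (z i₀)⟩)) l := h1
        rw [huty] at h5
        exact h5
      · rintro (⟨h1, -⟩ | ⟨-, h1, h2⟩)
        · exact absurd hi₀ (h1 i₀)
        · have h3 : ∀ j, nm ⟨x (z i₀), hx (z i₀)⟩ = nm ⟨x (z j), hx (z j)⟩ := fun j =>
            heq2 _ _ hi₀ (h1 i₀ j)
          refine ⟨?_, fun i j => Or.inl ((h3 i).symm.trans (h3 j))⟩
          have e : (fun i => u (nm ⟨x (z i), hx (z i)⟩)) =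
              fun _ => u (nm ⟨x (z i₀), hx (z i₀)⟩) := by
            funext j
            rw [h3 j]
          rw [e]
          have h5 := h2 i₀
          rw [← huty ⟨x (z i₀), hx (z i₀)⟩] at h5
          exact h5
  · funext a b
    apply propext
    change f (nm ⟨x a, hx a⟩) < f (nm ⟨x b, hx b⟩) ↔ ltD 𝔹 D idx (x a) (x b)
    rw [hf]
    exact hlt _ _

/-- the finite set of the values -/
noncomputable def vals {I : Type} [Finite J] [Finite I] (v : J → I → V) : Finset V :=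
  (Set.finite_range (fun q : J × I => v q.1 q.2)).toFinset

omit [LinearOrder V] in
theorem mem_vals {I : Type} [Finite J] [Finite I] (v : J → I → V) (a : J) (i : I) :
    v a i ∈ vals v :=
  (Set.finite_range (fun q : J × I => v q.1 q.2)).mem_toFinset.2 ⟨(a, i), rfl⟩

theorem sameO_refl (𝔹 : Str ρ V) (D : Set (T1 ρ)) (x : J → V) : SameO 𝔹 D x x :=
  ⟨fun _ => rfl, fun _ _ _ _ => Iff.rfl, fun _ _ _ => Iff.rfl⟩

end aux

theorem pf_BLD (hSYN : T_SYN) : Pool.Agent.H44.AR.T_BLD := by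
  intro ρ ρ' V I _ _ 𝔹 M hU har D h hh
  obtain ⟨N, ⟨eN⟩⟩ := Finite.exists_equiv_fin (T1 ρ)
  let idx : T1 ρ → ℕ := fun s => (eN s).val
  have hidx : Injective idx := fun s t hst => eN.injective (Fin.ext hst)
  choose g hg using exists_g hSYN hU D idx hidx
  have key : ∀ (J : Type) (v v' : J → I → V) (K K' : Finset V), (∀ a i, v a i ∈ K) →
      (∀ a i, v' a i ∈ K') → SameO 𝔹 D (fun q : J × I => v q.1 q.2) (fun q => v' q.1 q.2) →
      pullO h (fun a i => g K (v a i)) = pullO h (fun a i => g K' (v' a i)) := by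
    intro J v v' K K' h1 h2 hs
    apply hh.tpo
    have e1 := hg K (J × I) (fun q => v q.1 q.2) (fun q => h1 q.1 q.2)
    have e2 := hg K' (J × I) (fun q => v' q.1 q.2) (fun q => h2 q.1 q.2)
    exact e1.trans ((tD_congr 𝔹 D idx hs).trans e2.symm)
  let h' : OT ρ' (I → V) :=
    (fun l z => (pullO h (fun a i => g (vals z) (z a i))).1 l (fun a => a),
      fun v w => (pullO h (fun (a : Fin 2) i => g (vals ![v, w])
        ((![v, w] : Fin 2 → I → V) a i))).2 0 1)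
  have hmain : ∀ (J : Type) (v : J → I → V) (K : Finset V), (∀ a i, v a i ∈ K) →
      pullO h' v = pullO h (fun a i => g K (v a i)) := by
    intro J v K hK
    refine Prod.ext ?_ ?_
    · funext l z
      have h1 := key _ (fun a => v (z a)) (fun a => v (z a)) (vals (fun a => v (z a))) K
        (mem_vals _) (fun a i => hK (z a) i) (sameO_refl 𝔹 D _)
      exact congrFun (congrFun (congrArg Prod.fst h1) l) (fun a => a)
    · funext a b
      have h1 := key _ (fun c => (![v a, v b] : Fin 2 → I → V) c)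
        (fun c => (![v a, v b] : Fin 2 → I → V) c) (vals ![v a, v b]) K
        (mem_vals _) (fun c i => by
          fin_cases c
          · exact hK a i
          · exact hK b i) (sameO_refl 𝔹 D _)
      exact congrFun (congrFun (congrArg Prod.snd h1) 0) 1
  refine ⟨h', ?_, fun K => ⟨g K, ?_, fun k v hv => hmain (Fin k) v K hv⟩⟩
  · intro k v v' hs
    rw [hmain (Fin k) v (vals v) (mem_vals v), hmain (Fin k) v' (vals v') (mem_vals v')]
    exact key _ v v' _ _ (mem_vals v) (mem_vals v') hs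
  · have h1 := hg K K (fun x => (x : V)) (fun x => x.2)
    have hord : ∀ a b : K, ty 𝔹 (a : V) ∉ D → ty 𝔹 (b : V) ∉ D →
        (g K a < g K b ↔ (a : V) < b) := by
      intro a b ha hb
      have h2 : (g K a < g K b) = ltD 𝔹 D idx a b :=
        congrFun (congrFun (congrArg Prod.snd h1) a) b
      rw [h2]
      unfold ltD
      simp only [ha, hb, false_and, and_false, not_false_eq_true, true_and, false_or]
    have hrel : ∀ (l : Fin ρ.m) (z : Fin (ρ.ar l) → K), 𝔹 l (fun i => g K (z i)) ↔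
        relD 𝔹 D l (fun i => (z i : V)) := fun l z =>
      iff_of_eq (congrFun (congrFun (congrArg Prod.fst h1) l) z)
    refine ⟨fun a => ?_, fun a b ha hb => ?_, fun l z hz => ?_⟩
    · funext l
      apply propext
      change 𝔹 l (fun _ => g K a) ↔ ty 𝔹 (a : V) l
      rw [hrel l (fun _ => a)]
      unfold relD
      have h0 : 0 < ρ.ar l := (hU.ar l).1
      constructor
      · rintro (⟨-, h2⟩ | ⟨-, -, h2⟩)
        · exact h2
        · exact h2 ⟨0, h0⟩
      · intro h2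
        by_cases ha : ty 𝔹 (a : V) ∈ D
        · exact Or.inr ⟨⟨⟨0, h0⟩, ha⟩, fun _ _ => rfl, fun _ => h2⟩
        · exact Or.inl ⟨fun _ => ha, h2⟩
    · have h2 := hord a b ha hb
      have h3 := hord b a hb ha
      constructor
      · intro he
        rw [he] at h2 h3
        exact le_antisymm (not_lt.1 fun h' => lt_irrefl _ (h3.2 h'))
          (not_lt.1 fun h' => lt_irrefl _ (h2.2 h'))
      · intro he
        exact congrArg (g K) he
    · rw [hrel l z]
      unfold relD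
      constructor
      · rintro (⟨-, h2⟩ | ⟨⟨i, hi⟩, -⟩)
        · exact h2
        · exact absurd hi (hz i)
      · exact fun h2 => Or.inl ⟨hz, h2⟩

end Pool.Agent.H19.AR
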