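import Pool.Agent.H44.AR.BasicA

/-!
# All reducts, all arities: free pairs and blocks (MP_6ab439_lc, row FRB)
-/

set_option autoImplicit false
set_option linter.unusedVariables false

namespace Pool.Agent.H19.AR

open Pool.Agent.H68.BP Pool.Agent.H58.SF Pool.Agent.H53.GC Pool.Agent.H53.NR Pool.Agent.H53.GR
open Pool.Agent.H57.AR Pool.Agent.H44.AR
open Pool.Agent.H57.SO (Pal Col vt Sb FBl)
open Pool.Agent.H57.EQ (Cx)
open Function

theorem pf_FRB (hSYN : T_SYN) : T_FRB := by
  intro ρ V _ 𝔹 M hU
  constructor
  · intro x y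
    obtain ⟨f, hf, hf'⟩ := hSYN ρ V 𝔹 M hU (Fin 2) ℕ (fun a => a.val) ![x, y] (fun _ _ => False)
      Fin.val_injective (fun _ _ h => h)
    refine ⟨f, Prod.ext ?_ ?_⟩
    · funext l z
      apply propext
      change 𝔹 l (fun i => f (z i)) ↔ ((∀ i, z i = 0) ∧ 𝔹 l (fun _ => x)) ∨
        ((∀ i, z i = 1) ∧ 𝔹 l (fun _ => y))
      rw [hf' l z]
      have h0 : 0 < ρ.ar l := (hU.ar l).1
      constructor
      · rintro ⟨h1, h2⟩
        have h3 : ∀ i, z i = z ⟨0, h0⟩ := fun i => (h2 i ⟨0, h0⟩).resolve_right fun h => h.1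
        rcases Fin.exists_fin_two.1 ⟨z ⟨0, h0⟩, rfl⟩ with h4 | h4
        · left
          have h5 : ∀ i, z i = 0 := fun i => (h3 i).trans h4
          refine ⟨h5, ?_⟩
          have e : (fun i => (![x, y] : Fin 2 → V) (z i)) = fun _ => x := by
            funext i
            rw [h5 i]
            rfl
          rw [e] at h1
          exact h1
        · right
          have h5 : ∀ i, z i = 1 := fun i => (h3 i).trans h4
          refine ⟨h5, ?_⟩
          have e : (fun i => (![x, y] : Fin 2 → V) (z i)) = fun _ => y := by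
            funext i
            rw [h5 i]
            rfl
          rw [e] at h1
          exact h1
      · rintro (⟨h5, h1⟩ | ⟨h5, h1⟩)
        · refine ⟨?_, fun i j => Or.inl (by rw [h5 i, h5 j])⟩
          have e : (fun i => (![x, y] : Fin 2 → V) (z i)) = fun _ => x := by
            funext i
            rw [h5 i]
            rfl
          rw [e]
          exact h1
        · refine ⟨?_, fun i j => Or.inl (by rw [h5 i, h5 j])⟩
          have e : (fun i => (![x, y] : Fin 2 → V) (z i)) = fun _ => y := by
            funext i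
            rw [h5 i]
            rfl
          rw [e]
          exact h1
    · funext a b
      apply propext
      change f a < f b ↔ (a = 0 ∧ b = 1)
      rw [hf a b]
      revert a b
      decide
  · intro x
    obtain ⟨f, hf, hf'⟩ := hSYN ρ V 𝔹 M hU (Fin 6) ℕ (fun a => a.val) (fun _ => x)
      (fun _ _ => False) Fin.val_injective (fun _ _ h => h)
    refine ⟨f, ⟨fun a b hab => (hf a b).2 hab, ?_⟩, ?_⟩
    · intro l w h i j
      exact (((hf' l w).1 h).2 i j).resolve_right fun h => h.1
    · intro c
      funext l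
      apply propext
      change 𝔹 l (fun _ => f c) ↔ 𝔹 l (fun _ => x)
      have h := hf' l (fun _ => c)
      rw [h]
      exact ⟨fun h => h.1, fun h => ⟨h, fun _ _ => Or.inl rfl⟩⟩

end Pool.Agent.H19.AR
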