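import Pool.Agent.H44.AR.BasicA

/-!
# All reducts, all arities: `NE1` and `NE2` for the blind structure (MP_6ab439_lc, row NEE)
-/

set_option autoImplicit false
set_option linter.unusedVariables false

namespace Pool.Agent.H19.AR

open Pool.Agent.H68.BP Pool.Agent.H58.SF Pool.Agent.H53.GC Pool.Agent.H53.NR Pool.Agent.H53.GR
open Pool.Agent.H57.AR Pool.Agent.H44.AR
open Pool.Agent.H57.SO (Pal Col vt Sb FBl)
open Pool.Agent.H57.EQ (Cx)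
open Function

section aux

variable {V V' : Type} [LinearOrder V] [LinearOrder V'] {σ ρ ρ' : Sig} {𝔹 : Str ρ V}
  {𝔹' : Str ρ' V'} {𝔸 : Str σ V} {𝔸' : Str σ V'}

/-- equal elements have equal values -/
theorem um_eqO {m : (k : ℕ) → OT ρ (Fin k) → OT ρ' (Fin k)} (h : UM 𝔹 𝔹' 𝔸 𝔸' m) {k : ℕ}
    (u : Fin k → V) (a b : Fin k) (hab : u a = u b) : eqO (m k (tpo 𝔹 u)) a b := by
  obtain ⟨v, -, h2, h3⟩ := h.rlz u
  rw [← h2, eqO_tpo]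
  have e1 := h3 2 ![a, b]
  have e2 := h3 2 ![a, a]
  have e : (fun i => u ((![a, b] : Fin 2 → Fin k) i)) =
      (fun i => u ((![a, a] : Fin 2 → Fin k) i)) := by
    funext i
    fin_cases i
    · rfl
    · exact hab.symm
  rw [e] at e1
  exact (eq_of_tpo (e1.trans e2.symm) 0 1).2 rfl

theorem um_iter {m : (k : ℕ) → OT ρ (Fin k) → OT ρ (Fin k)} (h : UM 𝔹 𝔹 𝔸 𝔸 m) (n : ℕ) :
    UM 𝔹 𝔹 𝔸 𝔸 (fun k t => (m k)^[n] t) := by
  induction n with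
  | zero => exact UM.refl
  | succ n ih =>
    have h1 := UM.comp h ih
    exact h1

theorem exists_iterate {Θ : Type} [Finite Θ] (f : Θ → Θ) (hf : Injective f) :
    ∃ j : ℕ, ∀ s, f^[j+1] s = s := by
  let e : Equiv.Perm Θ := Equiv.ofBijective f ⟨hf, Finite.surjective_of_injective hf⟩
  have h1 : 0 < orderOf e := orderOf_pos e
  refine ⟨orderOf e - 1, fun s => ?_⟩
  rw [Nat.sub_add_cancel h1]
  have h2 : (⇑e)^[orderOf e] = ⇑(e ^ orderOf e) := Equiv.Perm.iterate_eq_pow e _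
  have h3 : (⇑e)^[orderOf e] s = s := by
    rw [h2, pow_orderOf_eq_one]
    rfl
  exact h3

/-- the map of the realized types -/
def tmR {m : (k : ℕ) → OT ρ (Fin k) → OT ρ (Fin k)} (h : UM 𝔹 𝔹 𝔸 𝔸 m)
    (s : {s : T1 ρ // ∃ x, ty 𝔹 x = s}) : {s : T1 ρ // ∃ x, ty 𝔹 x = s} :=
  ⟨tm m s.1, by
    obtain ⟨x, hx⟩ := s.2
    rw [← hx]
    exact h.tm_mem x⟩

theorem tm_iter {m : (k : ℕ) → OT ρ (Fin k) → OT ρ (Fin k)} (h : UM 𝔹 𝔹 𝔸 𝔸 m) (n : ℕ)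
    (s : {s : T1 ρ // ∃ x, ty 𝔹 x = s}) :
    tm (fun k t => (m k)^[n] t) s.1 = ((tmR h)^[n] s).1 := by
  induction n generalizing s with
  | zero => rfl
  | succ n ih =>
    obtain ⟨s, x, rfl⟩ := s
    have h1 := UM.tm_comp h (um_iter h n) x
    rw [iterate_succ_apply, ← ih]
    exact h1

theorem frp_ty (s : T1 ρ) (a : Fin 2) : tyO (frp s s) a = s := by
  funext l
  apply propext
  change ((∀ i : Fin (ρ.ar l), a = 0) ∧ s l) ∨ ((∀ i : Fin (ρ.ar l), a = 1) ∧ s l) ↔ s l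
  constructor
  · rintro (h | h)
    · exact h.2
    · exact h.2
  · intro h
    rcases Fin.exists_fin_two.1 ⟨a, rfl⟩ with h1 | h1
    · exact Or.inl ⟨fun _ => h1.symm ▸ rfl, h⟩
    · exact Or.inr ⟨fun _ => h1.symm ▸ rfl, h⟩

end aux

theorem pf_NEE (hCOL : Pool.Agent.H44.AR.T_COL) (hFRB : T_FRB) : T_NEE := by
  intro σ ρ V _ 𝔸 𝔹 M hU m D hne hm hfix hmax hid hm1
  -- composition with the two maps
  have hcomp : ∀ m' : (k : ℕ) → OT ρ (Fin k) → OT ρ (Fin k),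
      UM 𝔹 𝔹 (shp 𝔹 𝔸 D) (shp 𝔹 𝔸 D) m' →
      UM 𝔹 𝔹 𝔸 𝔸 (fun k t => m k (m' k t)) ∧
        ∀ x, tm (fun k t => m k (m' k t)) (ty 𝔹 x) = tm m' (ty 𝔹 x) := by
    intro m' hm'
    have h1 : UM 𝔹 𝔹 𝔸 (shp 𝔹 𝔸 D) m' := UM.comp hid hm'
    refine ⟨UM.comp h1 hm1, fun x => ?_⟩
    rw [UM.tm_comp h1 hm1 x]
    obtain ⟨y, hy⟩ := h1.tm_mem x
    rw [← hy]
    exact hfix.typ y
  have hNE1 : NE1 𝔹 (shp 𝔹 𝔸 D) := by
    intro m' hm' x y hxy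
    obtain ⟨h1, h2⟩ := hcomp m' hm'
    exact hne _ h1 x y (by rw [h2, h2, hxy])
  refine ⟨hNE1, ?_⟩
  intro m2 hm2 x hx hclp
  have hinj : Injective (tmR hm2) := by
    rintro ⟨s, a, rfl⟩ ⟨t, b, rfl⟩ hst
    exact Subtype.ext (hNE1 m2 hm2 a b (congrArg Subtype.val hst))
  obtain ⟨j, hj⟩ := exists_iterate _ hinj
  have hit := um_iter hm2 (j + 1)
  have hitj := um_iter hm2 j
  have htm : ∀ y, tm (fun k t => (m2 k)^[j+1] t) (ty 𝔹 y) = ty 𝔹 y := by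
    intro y
    have h1 := tm_iter hm2 (j + 1) ⟨ty 𝔹 y, y, rfl⟩
    rw [hj] at h1
    exact h1
  obtain ⟨hm4, hm4t⟩ := hcomp _ hit
  refine hx (hmax _ hm4 ⟨fun y => by rw [hm4t, htm], ?_⟩ x ?_)
  · intro y hy
    obtain ⟨p, hp⟩ := (hFRB ρ V 𝔹 M hU).1 y y
    obtain ⟨v, -, h2, -⟩ := hit.rlz p
    have hpt : ∀ a, ty 𝔹 (p a) = ty 𝔹 y := by
      intro a
      have h3 : tyO (tpo 𝔹 p) a = tyO (frp (ty 𝔹 y) (ty 𝔹 y)) a := by rw [hp]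
      rw [frp_ty] at h3
      exact h3
    have hvt : ∀ a, ty 𝔹 (v a) = ty 𝔹 y := by
      intro a
      have h3 := hit.typ p a
      rw [← h2, htm, hpt] at h3
      exact h3
    have hS : SameO 𝔹 D v (fun _ => v 0) := by
      refine ⟨fun a => ?_, fun a b ha _ => ?_, fun l z hz => ?_⟩
      · rw [hvt, hvt]
      · exact absurd (by rw [hvt a]; exact hy) ha
      · refine absurd ?_ (hz ⟨0, (hU.ar l).1⟩)
        rw [hvt]
        exact hy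
    have h4 := hCOL σ ρ ρ V V (shp 𝔹 𝔸 D) 𝔹 𝔸 𝔹 M hU m D hm1 hfix.clp 2 v (fun _ => v 0) hS
    unfold Clp
    change eqO (m 2 ((m2 2)^[j+1] (frp (ty 𝔹 y) (ty 𝔹 y)))) 0 1
    rw [← hp]
    change tpo 𝔹 v = (m2 2)^[j+1] (tpo 𝔹 p) at h2
    rw [← h2, h4]
    exact um_eqO hm1 (fun _ => v 0) 0 1 rfl
  · obtain ⟨p, hp⟩ := (hFRB ρ V 𝔹 M hU).1 x x
    obtain ⟨v, -, h2, -⟩ := hm2.rlz p
    have hv : v 0 = v 1 := by
      have h3 : eqO (m2 2 (frp (ty 𝔹 x) (ty 𝔹 x))) 0 1 := hclp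
      rw [← hp, ← h2, eqO_tpo] at h3
      exact h3
    unfold Clp
    change eqO (m 2 ((m2 2)^[j+1] (frp (ty 𝔹 x) (ty 𝔹 x)))) 0 1
    rw [iterate_succ_apply, ← hp, ← h2]
    exact um_eqO (UM.comp hitj hm1) v 0 1 hv

end Pool.Agent.H19.AR
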