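import Pool.Agent.H44.AR.BasicA
import Pool.Agent.H11.GR.UNI

/-!
# All reducts, all arities: realization (MP_6ab439_lc, row RLZ)
-/

set_option autoImplicit false
set_option linter.unusedVariables false

namespace Pool.Agent.H19.AR

open Pool.Agent.H68.BP Pool.Agent.H58.SF Pool.Agent.H53.GC Pool.Agent.H53.NR Pool.Agent.H53.GR
open Pool.Agent.H57.AR Pool.Agent.H44.AR
open Pool.Agent.H57.SO (Pal Col vt Sb FBl)
open Pool.Agent.H57.EQ (Cx)
open Function

section aux

variable {V W : Type} [LinearOrder V] {ρ : Sig} {𝔹 : Str ρ V} {M : ℕ} {q : OT ρ W}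

/-- realization of the tuples of length at most `M` -/
theorem rlz_k (hU : Un 𝔹 M) (h : ∀ p : Fin M → W, ∃ x : Fin M → V, tpo 𝔹 x = pullO q p) (k : ℕ)
    (hk : k ≤ M) (p : Fin k → W) : ∃ x : Fin k → V, tpo 𝔹 x = pullO q p := by
  rcases Nat.eq_zero_or_pos k with rfl | hk0
  · refine ⟨fun a => a.elim0, Prod.ext ?_ ?_⟩
    · funext l z
      exact (z ⟨0, (hU.ar l).1⟩).elim0
    · funext a
      exact a.elim0
  · obtain ⟨x, hx⟩ := h fun i => p (if h : i.val < k then ⟨i.val, h⟩ else ⟨0, hk0⟩)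
    refine ⟨fun a => x (Fin.castLE hk a), ?_⟩
    have h1 : ∀ a : Fin k, (if h : (Fin.castLE hk a).val < k then
        (⟨(Fin.castLE hk a).val, h⟩ : Fin k) else ⟨0, hk0⟩) = a := by
      intro a
      rw [dif_pos (show (Fin.castLE hk a).val < k from a.2)]
      rfl
    have h2 := congrArg (fun t => pullO t (Fin.castLE hk)) hx
    beta_reduce at h2
    rw [pullO_tpo, pullO_pullO] at h2
    rw [h2]
    congr 1
    funext a
    rw [h1]

/-- a realized triple -/
theorem rlz_3 (hU : Un 𝔹 M) (h : ∀ p : Fin M → W, ∃ x : Fin M → V, tpo 𝔹 x = pullO q p)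
    (a b c : W) : ∃ x y z : V, (x < x ↔ q.2 a a) ∧ (x < y ↔ q.2 a b) ∧ (x < z ↔ q.2 a c) ∧
      (y < x ↔ q.2 b a) ∧ (y < z ↔ q.2 b c) ∧ (z < x ↔ q.2 c a) ∧ (z < y ↔ q.2 c b) := by
  obtain ⟨x, hx⟩ := rlz_k hU h 3 hU.three ![a, b, c]
  have h1 : ∀ i j : Fin 3, (x i < x j) = (pullO q ![a, b, c]).2 i j := fun i j =>
    congrFun (congrFun (congrArg Prod.snd hx) i) j
  exact ⟨x 0, x 1, x 2, iff_of_eq (h1 0 0), iff_of_eq (h1 0 1), iff_of_eq (h1 0 2),
    iff_of_eq (h1 1 0), iff_of_eq (h1 1 2), iff_of_eq (h1 2 0), iff_of_eq (h1 2 1)⟩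

theorem rlz_update (hU : Un 𝔹 M) (h : ∀ p : Fin M → W, ∃ x : Fin M → V, tpo 𝔹 x = pullO q p)
    [DecidableEq W] (l : Fin ρ.m) (z : Fin (ρ.ar l) → W) (j : Fin (ρ.ar l)) (b : W)
    (hj : eqO q (z j) b) : q.1 l z ↔ q.1 l (update z j b) := by
  obtain ⟨x, hx⟩ := rlz_k hU h (ρ.ar l + 1) (hU.ar l).2 (Fin.cons b z)
  have h1 : x (Fin.succ j) = x 0 := by
    rw [← eqO_tpo (𝔹 := 𝔹) x, hx]
    exact hj
  have h2 : ∀ w : Fin (ρ.ar l) → Fin (ρ.ar l + 1), 𝔹 l (fun i => x (w i)) ↔
      q.1 l (fun i => (Fin.cons b z : Fin (ρ.ar l + 1) → W) (w i)) := fun w =>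
    iff_of_eq (congrFun (congrFun (congrArg Prod.fst hx) l) w)
  have h3 := h2 (fun i => Fin.succ i)
  have h4 := h2 (fun i => if i = j then 0 else Fin.succ i)
  have e3 : (fun i => (Fin.cons b z : Fin (ρ.ar l + 1) → W) (Fin.succ i)) = z := by
    funext i
    exact Fin.cons_succ _ _ i
  have e4 : (fun i => (Fin.cons b z : Fin (ρ.ar l + 1) → W) (if i = j then 0 else Fin.succ i)) =
      update z j b := by
    funext i
    by_cases hi : i = j
    · rw [if_pos hi, hi, update_self]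
      rfl
    · rw [if_neg hi, update_of_ne hi]
      exact Fin.cons_succ _ _ i
  have e5 : (fun i => x (if i = j then 0 else Fin.succ i)) = fun i => x (Fin.succ i) := by
    funext i
    by_cases hi : i = j
    · rw [if_pos hi, hi, h1]
    · rw [if_neg hi]
  rw [e3] at h3
  rw [e4, e5] at h4
  exact h3.symm.trans h4

theorem rlz_rel (hU : Un 𝔹 M) (h : ∀ p : Fin M → W, ∃ x : Fin M → V, tpo 𝔹 x = pullO q p)
    (l : Fin ρ.m) (z z' : Fin (ρ.ar l) → W) (hz : ∀ i, eqO q (z i) (z' i)) :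
    q.1 l z ↔ q.1 l z' := by
  classical
  have key : ∀ F : Finset (Fin (ρ.ar l)),
      q.1 l z ↔ q.1 l (fun i => if i ∈ F then z' i else z i) := by
    intro F
    induction F using Finset.induction_on with
    | empty =>
      have e : (fun i => if i ∈ (∅ : Finset (Fin (ρ.ar l))) then z' i else z i) = z := by
        funext i
        rw [if_neg (Finset.notMem_empty i)]
      rw [e]
    | insert a F ha ih =>
      have e : (fun i => if i ∈ insert a F then z' i else z i) =
          update (fun i => if i ∈ F then z' i else z i) a (z' a) := by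
        funext i
        by_cases hi : i = a
        · rw [hi, update_self, if_pos (Finset.mem_insert_self a F)]
        · rw [update_of_ne hi]
          by_cases hi' : i ∈ F
          · rw [if_pos hi', if_pos (Finset.mem_insert_of_mem hi')]
          · rw [if_neg hi', if_neg (fun h => (Finset.mem_insert.1 h).elim hi hi')]
      rw [e, ih]
      apply rlz_update hU h
      rw [if_neg ha]
      exact hz a
  have h1 := key Finset.univ
  have e : (fun i => if i ∈ (Finset.univ : Finset (Fin (ρ.ar l))) then z' i else z i) = z' := by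
    funext i
    rw [if_pos (Finset.mem_univ i)]
  rw [e] at h1
  exact h1

end aux

theorem pf_RLZ : Pool.Agent.H44.AR.T_RLZ := by
  intro ρ V _ 𝔹 M hU W _ q h
  have r3 := rlz_3 hU h
  have irr : ∀ a, ¬ q.2 a a := by
    intro a
    obtain ⟨x, y, z, h1, -⟩ := r3 a a a
    rw [← h1]
    exact lt_irrefl x
  have trn : ∀ a b c, q.2 a b → q.2 b c → q.2 a c := by
    intro a b c
    obtain ⟨x, y, z, h1, h2, h3, h4, h5, h6, h7⟩ := r3 a b c
    rw [← h2, ← h5, ← h3]
    exact lt_trans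
  have etr : ∀ a b c, eqO q a b → eqO q b c → eqO q a c := by
    intro a b c
    obtain ⟨x, y, z, h1, h2, h3, h4, h5, h6, h7⟩ := r3 a b c
    unfold eqO
    rw [← h2, ← h4, ← h5, ← h7, ← h3, ← h6]
    rintro ⟨a1, a2⟩ ⟨a3, a4⟩
    have e1 : x = y := le_antisymm (not_lt.1 a2) (not_lt.1 a1)
    have e2 : y = z := le_antisymm (not_lt.1 a4) (not_lt.1 a3)
    rw [e1, e2]
    exact ⟨lt_irrefl z, lt_irrefl z⟩
  have elt : ∀ a b c, eqO q a b → (q.2 a c ↔ q.2 b c) ∧ (q.2 c a ↔ q.2 c b) := by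
    intro a b c
    obtain ⟨x, y, z, h1, h2, h3, h4, h5, h6, h7⟩ := r3 a b c
    unfold eqO
    rw [← h2, ← h4, ← h3, ← h5, ← h6, ← h7]
    rintro ⟨a1, a2⟩
    have e1 : x = y := le_antisymm (not_lt.1 a2) (not_lt.1 a1)
    rw [e1]
    exact ⟨Iff.rfl, Iff.rfl⟩
  let S : Setoid W :=
    { r := fun a b => eqO q a b
      iseqv := ⟨fun a => ⟨irr a, irr a⟩, fun {a b} hab => ⟨hab.2, hab.1⟩,
        fun {a b c} hab hbc => etr a b c hab hbc⟩ }
  let Q := Quotient S
  let o : Q → W := Quotient.out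
  have ho : ∀ u : Q, Quotient.mk S (o u) = u := fun u => Quotient.out_eq u
  have hoe : ∀ a : W, eqO q (o (Quotient.mk S a)) a := fun a => Quotient.exact (ho _)
  have eqQ : ∀ u v : Q, eqO q (o u) (o v) → u = v := by
    intro u v h1
    have h2 : Quotient.mk S (o u) = Quotient.mk S (o v) := Quotient.sound h1
    rw [ho, ho] at h2
    exact h2
  have : Finite Q := Quotient.finite S
  let rk : Q → ℕ := fun u => {w : Q | q.2 (o w) (o u)}.ncard
  have rk_lt : ∀ u v : Q, q.2 (o u) (o v) → rk u < rk v := by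
    intro u v huv
    apply Set.ncard_lt_ncard _ (Set.toFinite _)
    constructor
    · intro w hw
      exact trn _ _ _ hw huv
    · intro hsub
      exact irr _ (hsub huv)
  have tri : ∀ u v : Q, u = v ∨ q.2 (o u) (o v) ∨ q.2 (o v) (o u) := by
    intro u v
    by_cases h1 : q.2 (o u) (o v)
    · exact Or.inr (Or.inl h1)
    · by_cases h2 : q.2 (o v) (o u)
      · exact Or.inr (Or.inr h2)
      · exact Or.inl (eqQ u v ⟨h1, h2⟩)
  have rk_inj : Injective rk := by
    intro u v huv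
    rcases tri u v with h1 | h1 | h1
    · exact h1
    · exact absurd huv (rk_lt u v h1).ne
    · exact absurd huv (rk_lt v u h1).ne'
  have rk_iff : ∀ u v : Q, rk u < rk v ↔ q.2 (o u) (o v) := by
    intro u v
    refine ⟨fun huv => ?_, rk_lt u v⟩
    rcases tri u v with h1 | h1 | h1
    · rw [h1] at huv
      exact absurd huv (lt_irrefl _)
    · exact h1
    · exact absurd huv (rk_lt v u h1).asymm
  let _ : LinearOrder Q := LinearOrder.lift' rk rk_inj
  obtain ⟨f, hf, hf'⟩ := Pool.Agent.H11.GR.pf_UNI ρ V 𝔹 M hU.univ Q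
    (fun l z => q.1 l (fun i => o (z i))) (by
      intro m s hm hs _
      obtain ⟨x, hx⟩ := rlz_k hU h m hm (fun a => o (s a))
      refine ⟨x, fun a b hab => ?_, fun l z => ?_⟩
      · rw [← eqO_tpo (𝔹 := 𝔹) x, hx] at hab
        exact hs (eqQ _ _ hab)
      · exact (iff_of_eq (congrFun (congrFun (congrArg Prod.fst hx) l) z)).symm)
  refine ⟨fun a => f (Quotient.mk S a), Prod.ext ?_ ?_⟩
  · funext l z
    apply propext
    change 𝔹 l (fun i => f (Quotient.mk S (z i))) ↔ q.1 l z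
    rw [← hf'.2 l (fun i => Quotient.mk S (z i))]
    exact rlz_rel hU h l _ _ fun i => hoe (z i)
  · funext a b
    apply propext
    change f (Quotient.mk S a) < f (Quotient.mk S b) ↔ q.2 a b
    rw [hf.lt_iff_lt]
    change rk (Quotient.mk S a) < rk (Quotient.mk S b) ↔ q.2 a b
    rw [rk_iff, (elt _ a _ (hoe a)).1, (elt _ b _ (hoe b)).2]

end Pool.Agent.H19.AR
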